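import Pool.Agent.Helper5.RO.Goals

/-!
# Project RO (MP_a41896_nt): packet AV
-/

set_option autoImplicit false

namespace Pool.Agent.Helper70.RO

open WeierstrassCurve MvPolynomial
open Pool.Agent.Helper29.BL Pool.Agent.Helper29.GC Pool.Agent.Helper5.RO

open scoped IntermediateField.algebraAdjoinAdjoin in
/-- dimension count -/
theorem indep_card {K Ω : Type} [Field K] [Field Ω] [Algebra K Ω] (n : ℕ) (ξ : Fin n → Ω)
    (hξ : AlgebraicIndependent K ξ) (S : Set Ω)
    (h : ∀ i, IsAlgebraic (IntermediateField.adjoin K S) (ξ i)) : (n : ℕ∞) ≤ S.encard := by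
  have hind : (AlgebraicIndependent.matroid K Ω).Indep (Set.range ξ) :=
    AlgebraicIndependent.matroid_indep_iff.mpr hξ.to_subtype_range
  have hsub : Set.range ξ ⊆ (AlgebraicIndependent.matroid K Ω).closure S := by
    rintro _ ⟨i, rfl⟩
    rw [AlgebraicIndependent.matroid_closure_eq, SetLike.mem_coe, Subalgebra.mem_algebraicClosure]
    exact (IsFractionRing.isAlgebraic_iff (Algebra.adjoin K S) (IntermediateField.adjoin K S) Ω).mpr
      (h i)
  have h1 := hind.encard_le_eRk_of_subset hsub
  rw [Matroid.eRk_closure_eq] at h1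
  have h2 := h1.trans (Matroid.eRk_le_encard _ S)
  have h3 : (Set.range ξ).encard = (n : ℕ∞) := by
    rw [← Set.image_univ, hξ.injective.encard_image, Set.encard_univ]
    simp
  rwa [h3] at h2

/-- the algebraic closure of `K(S)` in `Ω` -/
noncomputable def LL (K : Type) {Ω : Type} [Field K] [Field Ω] [Algebra K Ω] (S : Set Ω) :
    IntermediateField K Ω :=
  (algebraicClosure (IntermediateField.adjoin K S) Ω).restrictScalars K

theorem mem_LL {K Ω : Type} [Field K] [Field Ω] [Algebra K Ω] (S : Set Ω) (x : Ω) :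
    x ∈ LL K S ↔ IsAlgebraic (IntermediateField.adjoin K S) x :=
  mem_algebraicClosure_iff

theorem LL_closed {K Ω : Type} [Field K] [Field Ω] [Algebra K Ω] (S : Set Ω) (x : Ω)
    (h : IsAlgebraic (LL K S) x) : x ∈ LL K S := by
  rw [mem_LL]
  have h' : IsAlgebraic (algebraicClosure (IntermediateField.adjoin K S) Ω) x := h
  exact h'.restrictScalars (IntermediateField.adjoin K S)

theorem xRep_cases {F : Type} [Field F] {W : Affine F} (P : W.Point) :
    (P.xRep 1 = 1 ∧ P.xRep 0 = xc P) ∨ (P.xRep = ![1, 0] ∧ xc P = 0) := by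
  cases P with
  | zero => right; exact ⟨rfl, rfl⟩
  | some x y h => left; exact ⟨rfl, rfl⟩

/-- AV -/
theorem gAV (hTD : G_TD) (hGRP : G_GRP) : G_AV := by
  classical
  intro K _ W _ n hn ι _ D f hf c
  let R := FractionRing (MvPolynomial (Fin n) K)
  let Ω := AlgebraicClosure R
  have hev : ∀ p : MvPolynomial (Fin n) K, eval₂ (algebraMap K Ω)
      (fun i => algebraMap (MvPolynomial (Fin n) K) Ω (X i)) p =
      algebraMap (MvPolynomial (Fin n) K) Ω p := by
    intro p
    have h1 : (aeval (fun i => algebraMap (MvPolynomial (Fin n) K) Ω (X i)) :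
        MvPolynomial (Fin n) K →ₐ[K] Ω) = IsScalarTower.toAlgHom K (MvPolynomial (Fin n) K) Ω := by
      apply MvPolynomial.algHom_ext
      intro i
      rw [aeval_X]
      rfl
    rw [← aeval_def, h1]
    rfl
  have hinj : Function.Injective (algebraMap (MvPolynomial (Fin n) K) Ω) := by
    rw [IsScalarTower.algebraMap_eq (MvPolynomial (Fin n) K) R Ω]
    exact (algebraMap R Ω).injective.comp (IsFractionRing.injective _ _)
  have hne : ∀ p : MvPolynomial (Fin n) K, p ≠ 0 → eval₂ (algebraMap K Ω)
      (fun i => algebraMap (MvPolynomial (Fin n) K) Ω (X i)) p ≠ 0 := by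
    intro p hp h0
    rw [hev p, map_eq_zero_iff _ hinj] at h0
    exact hp h0
  refine ⟨Ω, inferInstance, inferInstance, inferInstance, algebraMap K Ω,
    fun i => algebraMap (MvPolynomial (Fin n) K) Ω (X i), hne, ?_⟩
  intro W' hW' b hb u s hall
  have hind : AlgebraicIndependent K (fun i => algebraMap (MvPolynomial (Fin n) K) Ω (X i)) := by
    rw [algebraicIndependent_iff]
    intro p hp
    by_contra hp0
    exact hne p hp0 hp
  obtain ⟨T, hTc, hT⟩ := hTD K n hn ι D f hf Ω
    (fun i => (c i • u + (s i : ℤ) • b i).xRep)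
    (fun i => by
      rcases xRep_cases (c i • u + (s i : ℤ) • b i) with h | h
      · left; exact h.1
      · right; exact h.1) hall
  set S : Set Ω := (T : Set Ω) ∪ {xc u} with hS
  obtain ⟨H, hH⟩ := hGRP K Ω (LL K S) (LL_closed S) W W' hW'
  have hTS : IntermediateField.adjoin K (T : Set Ω) ≤ IntermediateField.adjoin K S :=
    IntermediateField.adjoin.mono K _ _ Set.subset_union_left
  have hu : u ∈ H := by
    rw [hH, mem_LL]
    exact isAlgebraic_algebraMap (⟨xc u, IntermediateField.subset_adjoin K S
      (Or.inr rfl)⟩ : IntermediateField.adjoin K S)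
  have hz : ∀ i, c i • u + (s i : ℤ) • b i ∈ H := by
    intro i
    rw [hH]
    rcases xRep_cases (c i • u + (s i : ℤ) • b i) with h | h
    · rw [← h.2, mem_LL]
      have h1 := hT i h.1
      obtain ⟨p, hp0, hp⟩ := h1
      refine ⟨p.map (IntermediateField.inclusion hTS).toRingHom, ?_, ?_⟩
      · rw [Ne, Polynomial.map_eq_zero_iff (RingHom.injective _)]
        exact hp0
      · rw [Polynomial.aeval_def, Polynomial.eval₂_map]
        exact hp
    · rw [h.2]
      exact zero_mem _
  have hbi : ∀ i, b i ∈ H := by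
    intro i
    have h1 : (s i : ℤ) • b i ∈ H := by
      have h2 := H.sub_mem (hz i) (H.nsmul_mem hu (c i))
      rwa [add_sub_cancel_left] at h2
    rcases Int.units_eq_one_or (s i) with h2 | h2
    · rw [h2] at h1
      simpa using h1
    · rw [h2] at h1
      simpa using h1
  have hcard := indep_card n _ hind S (fun i => by
    have h7 := (hH _).mp (hbi i)
    rw [(hb i).2, mem_LL] at h7
    exact h7)
  have h4 : S.encard ≤ (n - 1 : ℕ) := by
    refine (Set.encard_union_le _ _).trans ?_
    rw [Set.encard_coe_eq_coe_finsetCard, Set.encard_singleton]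
    have : T.card + 1 ≤ n - 1 := by omega
    exact_mod_cast this
  have h5 := hcard.trans h4
  have h6 : n ≤ n - 1 := by exact_mod_cast h5
  omega

end Pool.Agent.Helper70.RO
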